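import Mathlib

namespace Pool.Agent.H.MP_5d027a_an

open Set

variable {X Y Z : Type}

def Inv [TopologicalSpace X] (T : X ≃ₜ X) (A : Set X) : Prop := ∀ x, T x ∈ A ↔ x ∈ A

theorem inv_iff [TopologicalSpace X] (T : X ≃ₜ X) (A : Set X) : T '' A = A ↔ Inv T A := by
  constructor
  · intro h x
    constructor
    · intro hx
      rw [← h] at hx
      obtain ⟨y, hy, hyx⟩ := hx
      rwa [← T.injective hyx]
    · intro hx
      rw [← h]
      exact ⟨x, hx, rfl⟩
  · intro h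
    ext x
    constructor
    · rintro ⟨y, hy, rfl⟩
      exact (h y).2 hy
    · intro hx
      refine ⟨T.symm x, (h _).1 ?_, T.apply_symm_apply x⟩
      rwa [T.apply_symm_apply]

def IsMin [TopologicalSpace X] (T : X ≃ₜ X) : Prop :=
  ∀ A : Set X, IsClosed A → T '' A = A → A.Nonempty → A = univ

def Disj [TopologicalSpace X] [TopologicalSpace Y] (T : X ≃ₜ X) (S : Y ≃ₜ Y) : Prop :=
  ∀ J : Set (X × Y), IsClosed J → (T.prodCongr S) '' J = J → Prod.fst '' J = univ →
    Prod.snd '' J = univ → J = univ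

def DisjMin [TopologicalSpace X] (T : X ≃ₜ X) : Prop :=
  ∀ (Z : Type) [MetricSpace Z] [CompactSpace Z] [Nonempty Z] (R : Z ≃ₜ Z), IsMin R → Disj T R

structure IsMinSet [TopologicalSpace X] (T : X ≃ₜ X) (M : Set X) : Prop where
  ne : M.Nonempty
  cl : IsClosed M
  inv : Inv T M
  min : ∀ A ⊆ M, A.Nonempty → IsClosed A → Inv T A → A = M

theorem exists_minSet [TopologicalSpace X] [CompactSpace X] (T : X ≃ₜ X) {A : Set X}
    (hne : A.Nonempty) (hcl : IsClosed A) (hinv : Inv T A) : ∃ M ⊆ A, IsMinSet T M := by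
  obtain ⟨M, hMA, hM⟩ := zorn_superset_nonempty
    {B : Set X | B.Nonempty ∧ IsClosed B ∧ Inv T B} (by
      intro c hc hchain hcne
      refine ⟨⋂₀ c, ⟨?_, isClosed_sInter fun B hB => (hc hB).2.1, ?_⟩,
        fun s hs => sInter_subset_of_mem hs⟩
      · have : Nonempty c := hcne.to_subtype
        refine IsCompact.nonempty_sInter_of_directed_nonempty_isCompact_isClosed ?_
          (fun B hB => (hc hB).1) (fun B hB => (hc hB).2.1.isCompact) (fun B hB => (hc hB).2.1)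
        intro B hB C hC
        rcases hchain.total hB hC with h | h
        · exact ⟨B, hB, subset_rfl, h⟩
        · exact ⟨C, hC, h, subset_rfl⟩
      · intro x
        simp only [mem_sInter]
        exact ⟨fun h B hB => ((hc hB).2.2 x).1 (h B hB), fun h B hB => ((hc hB).2.2 x).2 (h B hB)⟩)
    A ⟨hne, hcl, hinv⟩
  exact ⟨M, hMA, hM.prop.1, hM.prop.2.1, hM.prop.2.2,
    fun B hBM h1 h2 h3 => (hM.eq_of_ge ⟨h1, h2, h3⟩ hBM).symm ▸ rfl⟩

theorem Inv.image [TopologicalSpace X] [TopologicalSpace Y] {T : X ≃ₜ X} {A : Set X}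
    (hA : Inv T A) (S : Y ≃ₜ Y) (f : X → Y) (hf : ∀ x, f (T x) = S (f x)) : Inv S (f '' A) := by
  intro y
  constructor
  · rintro ⟨x, hx, hxy⟩
    refine ⟨T.symm x, (hA _).1 (by rwa [T.apply_symm_apply]), S.injective ?_⟩
    rw [← hf, T.apply_symm_apply, hxy]
  · rintro ⟨x, hx, rfl⟩
    exact ⟨T x, (hA x).2 hx, hf x⟩

theorem Inv.closure [TopologicalSpace X] {T : X ≃ₜ X} {A : Set X} (hA : Inv T A) :
    Inv T (closure A) := by
  rw [← inv_iff] at hA ⊢
  rw [T.image_closure, hA]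

theorem IsMin.snd_eq [TopologicalSpace X] [CompactSpace X] [TopologicalSpace Z] [T2Space Z]
    [CompactSpace Z] {T : X ≃ₜ X} {R : Z ≃ₜ Z} (hR : IsMin R) {J : Set (X × Z)}
    (hcl : IsClosed J) (hinv : Inv (T.prodCongr R) J) (hne : J.Nonempty) :
    Prod.snd '' J = univ := by
  refine hR _ ((hcl.isCompact.image continuous_snd).isClosed) ?_ (hne.image _)
  rw [inv_iff]
  exact hinv.image _ _ fun _ => rfl

theorem Disj.eq_univ [TopologicalSpace X] [CompactSpace X] [Nonempty X] [TopologicalSpace Z]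
    [T2Space Z] [CompactSpace Z] {T : X ≃ₜ X} {R : Z ≃ₜ Z} (h : Disj T R) (hR : IsMin R)
    {J : Set (X × Z)} (hcl : IsClosed J) (hinv : Inv (T.prodCongr R) J)
    (h1 : ∀ x, ∃ z, (x, z) ∈ J) : J = univ := by
  refine h J hcl ((inv_iff _ _).2 hinv) ?_ (hR.snd_eq hcl hinv ?_)
  · refine eq_univ_of_forall fun x => ?_
    obtain ⟨z, hz⟩ := h1 x
    exact ⟨(x, z), hz, rfl⟩
  · obtain ⟨x⟩ := ‹Nonempty X›
    obtain ⟨z, hz⟩ := h1 x
    exact ⟨_, hz⟩

def DenseMin [TopologicalSpace X] (T : X ≃ₜ X) : Prop :=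
  ∀ A : Set X, IsClosed A → (∀ M, IsMinSet T M → M ⊆ A) → A = univ

theorem DenseMin.eq_univ [TopologicalSpace X] {T : X ≃ₜ X} (h : DenseMin T) {A : Set X}
    (hcl : IsClosed A) (hinv : Inv T A) (hA : ∀ M, IsMinSet T M → (A ∩ M).Nonempty) :
    A = univ := by
  refine h A hcl fun M hM => ?_
  have := hM.min (A ∩ M) inter_subset_right (hA M hM) (hcl.inter hM.cl)
    (fun x => by simp only [mem_inter_iff, hinv x, hM.inv x])
  rw [← this]
  exact inter_subset_left

def restr [TopologicalSpace X] (T : X ≃ₜ X) {M : Set X} (h : Inv T M) : M ≃ₜ M :=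
  T.subtype (p := fun x => x ∈ M) (q := fun x => x ∈ M) fun x => (h x).symm

theorem restr_apply [TopologicalSpace X] (T : X ≃ₜ X) {M : Set X} (h : Inv T M) (x : M) :
    (restr T h x : X) = T x := rfl

theorem IsMinSet.isMin [TopologicalSpace X] {T : X ≃ₜ X} {M : Set X} (hM : IsMinSet T M) :
    IsMin (restr T hM.inv) := by
  intro A hcl hinv hne
  rw [inv_iff] at hinv
  have h1 : Subtype.val '' A = M := by
    refine hM.min _ (Subtype.coe_image_subset _ _) (hne.image _)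
      (hM.cl.isClosedEmbedding_subtypeVal.isClosedMap _ hcl) ?_
    exact hinv.image _ _ fun _ => rfl
  refine eq_univ_of_forall fun x => ?_
  have : (x : X) ∈ Subtype.val '' A := by rw [h1]; exact x.2
  obtain ⟨y, hy, hyx⟩ := this
  rwa [← Subtype.ext hyx]

theorem prod_disjMin [MetricSpace X] [CompactSpace X] [Nonempty X] [MetricSpace Y]
    [CompactSpace Y] [Nonempty Y] {T : X ≃ₜ X} {S : Y ≃ₜ Y} (hX : DisjMin T) (hY : DisjMin S)
    (dX : DenseMin T) (dY : DenseMin S) : DisjMin (T.prodCongr S) := by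
  intro Z _ _ _ R hR J hcl hinv h1 _
  rw [inv_iff] at hinv
  have hJ : ∀ x y, ∃ z, ((x, y), z) ∈ J := by
    intro x y
    have : (x, y) ∈ Prod.fst '' J := by rw [h1]; trivial
    obtain ⟨⟨p, z⟩, hp, rfl⟩ := this
    exact ⟨z, hp⟩
  have step1 : ∀ N, IsMinSet S N → ∀ x z, ∃ y ∈ N, ((x, y), z) ∈ J := by
    intro N hN x z
    have hc : IsClosed (J ∩ {q : (X × Y) × Z | q.1.2 ∈ N}) :=
      hcl.inter (hN.cl.preimage (by fun_prop))
    have hi : Inv ((T.prodCongr S).prodCongr R) (J ∩ {q : (X × Y) × Z | q.1.2 ∈ N}) := by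
      intro q
      have h2 := hN.inv q.1.2
      have h3 := hinv q
      exact and_congr h3 h2
    have := (hX Z R hR).eq_univ hR
      (J := (fun q : (X × Y) × Z => (q.1.1, q.2)) '' (J ∩ {q : (X × Y) × Z | q.1.2 ∈ N}))
      (hc.isCompact.image (by fun_prop)).isClosed
      (hi.image _ _ fun _ => rfl) (by
        intro x
        obtain ⟨y, hy⟩ := hN.ne
        obtain ⟨z, hz⟩ := hJ x y
        exact ⟨z, ((x, y), z), ⟨hz, hy⟩, rfl⟩)
    have h4 : (x, z) ∈ (fun q : (X × Y) × Z => (q.1.1, q.2)) ''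
        (J ∩ {q : (X × Y) × Z | q.1.2 ∈ N}) := by rw [this]; trivial
    obtain ⟨⟨⟨x', y⟩, z'⟩, ⟨hq, hy⟩, he⟩ := h4
    obtain ⟨rfl, rfl⟩ := Prod.mk.inj he
    exact ⟨y, hy, hq⟩
  have step2 : ∀ P, IsMinSet (T.prodCongr R) P → ∀ p ∈ P, ∀ y, ((p.1, y), p.2) ∈ J := by
    intro P hP p hp y
    have : CompactSpace P := isCompact_iff_compactSpace.1 hP.cl.isCompact
    have : Nonempty P := hP.ne.to_subtype
    have hc : IsClosed {q : Y × P | ((q.2.1.1, q.1), q.2.1.2) ∈ J} := hcl.preimage (by fun_prop)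
    have hi : Inv (S.prodCongr (restr _ hP.inv)) {q : Y × P | ((q.2.1.1, q.1), q.2.1.2) ∈ J} :=
      fun q => hinv ((q.2.1.1, q.1), q.2.1.2)
    have hfst : Prod.fst '' {q : Y × P | ((q.2.1.1, q.1), q.2.1.2) ∈ J} = univ := by
      refine dY.eq_univ (hc.isCompact.image continuous_fst).isClosed
        (hi.image _ _ fun _ => rfl) fun N hN => ?_
      obtain ⟨y, hy, hyJ⟩ := step1 N hN p.1 p.2
      exact ⟨y, ⟨(y, ⟨p, hp⟩), hyJ, rfl⟩, hy⟩
    have := (hY P (restr _ hP.inv) hP.isMin).eq_univ hP.isMin hc hi (by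
      intro y
      have : y ∈ Prod.fst '' {q : Y × P | ((q.2.1.1, q.1), q.2.1.2) ∈ J} := by rw [hfst]; trivial
      obtain ⟨⟨y', p'⟩, h, rfl⟩ := this
      exact ⟨p', h⟩)
    have h4 : (y, (⟨p, hp⟩ : P)) ∈ {q : Y × P | ((q.2.1.1, q.1), q.2.1.2) ∈ J} := by
      rw [this]; trivial
    exact h4
  have hc : IsClosed {p : X × Z | ∀ y, ((p.1, y), p.2) ∈ J} := by
    simp only [ofPred_forall]
    exact isClosed_iInter fun y => hcl.preimage (by fun_prop)
  have hi : Inv (T.prodCongr R) {p : X × Z | ∀ y, ((p.1, y), p.2) ∈ J} := by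
    intro p
    constructor
    · intro h y
      exact (hinv ((p.1, y), p.2)).1 (h (S y))
    · intro h y
      have := (hinv ((p.1, S.symm y), p.2)).2 (h (S.symm y))
      have e : ((T.prodCongr S).prodCongr R) ((p.1, S.symm y), p.2) = ((T p.1, y), R p.2) := by
        show ((T p.1, S (S.symm y)), R p.2) = _
        rw [S.apply_symm_apply]
      rw [e] at this
      exact this
  have hfst : Prod.fst '' {p : X × Z | ∀ y, ((p.1, y), p.2) ∈ J} = univ := by
    refine dX.eq_univ (hc.isCompact.image continuous_fst).isClosed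
      (hi.image _ _ fun _ => rfl) fun M hM => ?_
    obtain ⟨P, hPM, hP⟩ := exists_minSet (T.prodCongr R) (A := Prod.fst ⁻¹' M)
      (by
        obtain ⟨x, hx⟩ := hM.ne
        obtain ⟨z⟩ := ‹Nonempty Z›
        exact ⟨(x, z), hx⟩)
      (hM.cl.preimage continuous_fst) (fun p => hM.inv p.1)
    obtain ⟨p, hp⟩ := hP.ne
    exact ⟨p.1, ⟨p, step2 P hP p hp, rfl⟩, hPM hp⟩
  have := (hX Z R hR).eq_univ hR hc hi (by
    intro x
    have : x ∈ Prod.fst '' {p : X × Z | ∀ y, ((p.1, y), p.2) ∈ J} := by rw [hfst]; trivial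
    obtain ⟨⟨x', z⟩, h, rfl⟩ := this
    exact ⟨z, h⟩)
  refine eq_univ_of_forall fun q => ?_
  have h4 : (q.1.1, q.2) ∈ {p : X × Z | ∀ y, ((p.1, y), p.2) ∈ J} := by rw [this]; trivial
  exact h4 q.1.2

end Pool.Agent.H.MP_5d027a_an
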