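import Mathlib

namespace Pool.Agent.H.MP_5d027a_an

open Set

abbrev Sq := ℤ → Bool

def sh (n : ℤ) (z : Sq) : Sq := fun i => z (i + n)

def Occ (r : ℕ) (v z : Sq) (p : ℤ) : Prop := ∀ i : ℤ, 0 ≤ i → i < r → z (p + i) = v i

def Glue (Ω : Set Sq) (g : ℕ) : Prop :=
  ∀ z₁ ∈ Ω, ∀ z₂ ∈ Ω, ∀ a b : ℤ, a + g ≤ b →
    ∃ z ∈ Ω, (∀ i < a, z i = z₁ i) ∧ ∀ i, b ≤ i → z i = z₂ i

structure Good {ι : Type} (A : ι → ℤ → Prop) (Ω : Set Sq) : Prop where
  cl : IsClosed Ω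
  inv : ∀ z ∈ Ω, ∀ n, sh n z ∈ Ω
  glue : ∃ g, Glue Ω g
  sub : ∀ x, ∃ z ∈ Ω, ∀ n, z n = true → A x n

theorem isClosed_occ (r : ℕ) (v : Sq) (p : ℤ) : IsClosed {z : Sq | Occ r v z p} := by
  simp only [Occ, ofPred_forall]
  refine isClosed_iInter fun i => isClosed_iInter fun _ => isClosed_iInter fun _ => ?_
  exact isClosed_eq (continuous_apply _) continuous_const

theorem insert_one {Ω : Set Sq} {g r : ℕ} {v u : Sq} {p : ℤ} (hg : Glue Ω g)
    (hinv : ∀ z ∈ Ω, ∀ n, sh n z ∈ Ω) (hu : u ∈ Ω) (hp : Occ r v u p) {z : Sq} (hz : z ∈ Ω)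
    (c : ℤ) : ∃ y ∈ Ω, (∀ i, (i < c ∨ c + (2 * g + r + 1) ≤ i) → y i = z i) ∧
      Occ r v y (c + g) := by
  obtain ⟨z₁, hz₁, h1, h2⟩ := hg z hz _ (hinv u hu (p - (c + g))) c (c + g) le_rfl
  obtain ⟨z₂, hz₂, h3, h4⟩ := hg z₁ hz₁ z hz (c + g + r) (c + g + r + g) le_rfl
  refine ⟨z₂, hz₂, fun i hi => ?_, fun i h0 hi => ?_⟩
  · rcases hi with hi | hi
    · rw [h3 i (by omega), h1 i hi]
    · exact h4 i (by omega)
  · rw [h3 _ (by omega), h2 _ (by omega), ← hp i h0 hi]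
    unfold sh
    congr 1
    ring

theorem insert_many {Ω : Set Sq} {g r : ℕ} {v u : Sq} {p : ℤ} (hcl : IsClosed Ω) (hg : Glue Ω g)
    (hinv : ∀ z ∈ Ω, ∀ n, sh n z ∈ Ω) (hu : u ∈ Ω) (hp : Occ r v u p) {z : Sq} (hz : z ∈ Ω)
    (S : Set ℤ) (hS : ∀ c ∈ S, ∀ d ∈ S, c < d → c + (2 * g + r + 1) ≤ d) :
    ∃ y ∈ Ω, (∀ i, (∀ c ∈ S, i < c ∨ c + (2 * g + r + 1) ≤ i) → y i = z i) ∧
      ∀ c ∈ S, Occ r v y (c + g) := by
  classical
  have fin : ∀ F : Finset ℤ, ∃ y ∈ Ω,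
      (∀ i, (∀ c ∈ S, i < c ∨ c + (2 * g + r + 1) ≤ i) → y i = z i) ∧
        ∀ c ∈ F, c ∈ S → Occ r v y (c + g) := by
    intro F
    induction F using Finset.induction_on with
    | empty => exact ⟨z, hz, fun _ _ => rfl, by simp⟩
    | insert c F _ ih =>
      obtain ⟨y, hy, h1, h2⟩ := ih
      by_cases hc : c ∈ S
      · obtain ⟨w, hw, h3, h4⟩ := insert_one hg hinv hu hp hy c
        refine ⟨w, hw, fun i hi => by rw [h3 i (hi c hc), h1 i hi], fun d hd hdS => ?_⟩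
        rcases lt_trichotomy d c with h | h | h
        · have hdF : d ∈ F := by
            rcases Finset.mem_insert.1 hd with h' | h'
            · omega
            · exact h'
          have := hS d hdS c hc h
          intro i h0 hi
          rw [h3 _ (Or.inl (by omega)), h2 d hdF hdS i h0 hi]
        · rw [h]; exact h4
        · have hdF : d ∈ F := by
            rcases Finset.mem_insert.1 hd with h' | h'
            · omega
            · exact h'
          have := hS c hc d hdS h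
          intro i h0 hi
          rw [h3 _ (Or.inr (by omega)), h2 d hdF hdS i h0 hi]
      · refine ⟨y, hy, h1, fun d hd hdS => h2 d ?_ hdS⟩
        rcases Finset.mem_insert.1 hd with h' | h'
        · exact absurd (h' ▸ hdS) hc
        · exact h'
  have hK : IsClosed (Ω ∩ {y : Sq | ∀ i,
      (∀ c ∈ S, i < c ∨ c + (2 * g + r + 1) ≤ i) → y i = z i}) := by
    refine hcl.inter ?_
    simp only [ofPred_forall]
    exact isClosed_iInter fun i => isClosed_iInter fun _ =>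
      isClosed_eq (continuous_apply _) continuous_const
  obtain ⟨y, ⟨hy, h1⟩, h2⟩ := hK.isCompact.inter_iInter_nonempty
    (fun c : ℤ => {y : Sq | c ∈ S → Occ r v y (c + g)}) (fun c => by
      simp only [ofPred_forall]
      exact isClosed_iInter fun _ => isClosed_occ r v _) (fun F => by
      obtain ⟨y, hy, h1, h2⟩ := fin F
      exact ⟨y, ⟨hy, h1⟩, mem_iInter₂.2 fun c hc => h2 c hc⟩)
  exact ⟨y, hy, h1, fun c hc => mem_iInter.1 h2 c hc⟩

def Runs {ι : Type} (A : ι → ℤ → Prop) : Prop :=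
  ∀ l : ℕ, ∃ L : ℕ, ∀ x c, ∃ a : ℤ, c ≤ a ∧ a ≤ c + L ∧ ∀ i, a ≤ i → i < a + l → A x i

theorem Good.step {ι : Type} {A : ι → ℤ → Prop} (hA : Runs A) {Ω : Set Sq} (h : Good A Ω)
    {r : ℕ} {v u : Sq} {p₀ : ℤ} (hu : u ∈ Ω) (hp : Occ r v u p₀) :
    ∃ Ω' ⊆ Ω, Good A Ω' ∧ ∀ z ∈ Ω', ∃ p, Occ r v z p := by
  obtain ⟨g, hg⟩ := h.glue
  obtain ⟨L, hL⟩ := hA (2 * g + r + 1)
  obtain ⟨B, hB⟩ : ∃ B : ℤ, B = 2 * g + r + 1 := ⟨_, rfl⟩
  obtain ⟨K, hK⟩ : ∃ K : ℕ, K = 3 * L + 4 * (2 * g + r + 1) := ⟨_, rfl⟩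
  have hKB : (K : ℤ) = 3 * L + 4 * B := by rw [hK, hB]; push_cast; ring
  have hBpos : 0 < B := by omega
  refine ⟨{z | z ∈ Ω ∧ ∀ c : ℤ, ∃ p, c ≤ p ∧ p < c + K ∧ Occ r v z p}, fun z hz => hz.1,
    ⟨?_, ?_, ⟨2 * K + r + g, ?_⟩, ?_⟩, fun z hz => (hz.2 0).imp fun p hp => hp.2.2⟩
  · refine h.cl.inter (s₂ := {z : Sq | ∀ c : ℤ, ∃ p, c ≤ p ∧ p < c + K ∧ Occ r v z p}) ?_
    simp only [ofPred_forall]
    refine isClosed_iInter fun c => ?_
    have : {z : Sq | ∃ p, c ≤ p ∧ p < c + K ∧ Occ r v z p} =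
        ⋃ p ∈ Finset.Ico c (c + K), {z : Sq | Occ r v z p} := by
      ext z
      simp only [mem_ofPred_eq, mem_iUnion, Finset.mem_Ico, exists_prop, and_assoc]
    rw [this]
    exact isClosed_biUnion_finset fun p _ => isClosed_occ r v p
  · rintro z ⟨hz, h2⟩ n
    refine ⟨h.inv z hz n, fun c => ?_⟩
    obtain ⟨p, h3, h4, h5⟩ := h2 (c + n)
    refine ⟨p - n, by omega, by omega, fun i h0 hi => ?_⟩
    rw [← h5 i h0 hi]
    unfold sh
    congr 1
    ring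
  · rintro z₁ ⟨hz₁, h1⟩ z₂ ⟨hz₂, h2⟩ a b hab
    push_cast at hab
    obtain ⟨p, hp1, hp2, hp3⟩ := h1 a
    obtain ⟨q, hq1, hq2, hq3⟩ := h2 (b - K)
    obtain ⟨z₀, hz₀, h3, h4⟩ := hg z₁ hz₁ z₂ hz₂ (p + r) q (by omega)
    obtain ⟨y, hy, h5, h6⟩ := insert_many h.cl hg h.inv hu hp hz₀
      {s | (∃ j : ℤ, 0 ≤ j ∧ s = p + r + j * B) ∧ s + B ≤ q} (by
        rintro _ ⟨⟨j, -, rfl⟩, -⟩ _ ⟨⟨k, -, rfl⟩, -⟩ hjk
        have : j < k := by
          by_contra hcon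
          have : k * B ≤ j * B := mul_le_mul_of_nonneg_right (by omega) hBpos.le
          omega
        have : (j + 1) * B ≤ k * B := mul_le_mul_of_nonneg_right (by omega) hBpos.le
        rw [← hB]
        linarith)
    have hl : ∀ i < p + r, y i = z₁ i := by
      intro i hi
      rw [h5 i ?_, h3 i hi]
      rintro _ ⟨⟨j, hj, rfl⟩, -⟩
      have : 0 ≤ j * B := mul_nonneg hj hBpos.le
      left
      omega
    have hr : ∀ i, q ≤ i → y i = z₂ i := by
      intro i hi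
      rw [h5 i ?_, h4 i hi]
      rintro s ⟨-, hs⟩
      right
      omega
    refine ⟨y, ⟨hy, fun c => ?_⟩, fun i hi => hl i (by omega), fun i hi => hr i (by omega)⟩
    by_cases hc1 : c ≤ p
    · obtain ⟨p', h7, h8, h9⟩ := h1 c
      by_cases hpp : p' ≤ p
      · exact ⟨p', h7, h8, fun i h0 hi => by rw [hl _ (by omega), h9 i h0 hi]⟩
      · exact ⟨p, hc1, by omega, fun i h0 hi => by rw [hl _ (by omega), hp3 i h0 hi]⟩
    by_cases hc2 : q < c
    · obtain ⟨p', h7, h8, h9⟩ := h2 c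
      exact ⟨p', h7, h8, fun i h0 hi => by rw [hr _ (by omega), h9 i h0 hi]⟩
    by_cases hc3 : q < c + K
    · exact ⟨q, by omega, hc3, fun i h0 hi => by rw [hr _ (by omega), hq3 i h0 hi]⟩
    have e1 := Int.emod_add_mul_ediv (c - p) B
    have e2 := Int.emod_nonneg (c - p) hBpos.ne'
    have e3 := Int.emod_lt_of_pos (c - p) hBpos
    have e4 : 0 ≤ (c - p) / B := Int.ediv_nonneg (by omega) hBpos.le
    have e5 : ((c - p) / B + 1) * B = B * ((c - p) / B) + B := by ring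
    refine ⟨p + r + ((c - p) / B + 1) * B + g, by omega, by omega,
      h6 _ ⟨⟨_, by omega, rfl⟩, by omega⟩⟩
  · intro x
    obtain ⟨z, hz, hzx⟩ := h.sub x
    obtain ⟨D, hD⟩ : ∃ D : ℤ, D = L + B := ⟨_, rfl⟩
    have hDpos : 0 < D := by omega
    choose a ha1 ha2 ha3 using fun j : ℤ => hL x (j * D)
    have hmono : ∀ j k, j < k → a j + B ≤ a k := by
      intro j k hjk
      have h1 : (j + 1) * D ≤ k * D := mul_le_mul_of_nonneg_right (by omega) hDpos.le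
      have h2 := ha2 j
      have h3 := ha1 k
      have : (j + 1) * D = j * D + D := by ring
      omega
    obtain ⟨y, hy, h5, h6⟩ := insert_many h.cl hg h.inv hu hp hz (range a) (by
      rintro _ ⟨j, rfl⟩ _ ⟨k, rfl⟩ hjk
      rcases lt_trichotomy j k with h' | h' | h'
      · have := hmono j k h'
        omega
      · rw [h'] at hjk
        omega
      · have := hmono k j h'
        omega)
    refine ⟨y, ⟨hy, fun c => ?_⟩, fun n hn => ?_⟩
    · have e1 := Int.emod_add_mul_ediv c D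
      have e2 := Int.emod_nonneg c hDpos.ne'
      have e3 := Int.emod_lt_of_pos c hDpos
      have e5 : (c / D + 1) * D = D * (c / D) + D := by ring
      have h1 := ha1 (c / D + 1)
      have h2 := ha2 (c / D + 1)
      exact ⟨a (c / D + 1) + g, by omega, by omega, h6 _ ⟨_, rfl⟩⟩
    · by_cases hc : ∀ c ∈ range a, n < c ∨ c + (2 * g + r + 1) ≤ n
      · exact hzx n (by rw [← h5 n hc, hn])
      · push Not at hc
        obtain ⟨_, ⟨j, rfl⟩, h1, h2⟩ := hc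
        exact ha3 j n h1 (by push_cast; omega)

theorem exists_subshift {ι : Type} {A : ι → ℤ → Prop} (hA : Runs A) :
    ∃ Z : Set Sq, IsClosed Z ∧ (∀ z ∈ Z, ∀ n, sh n z ∈ Z) ∧
      (∀ x, ∃ z ∈ Z, ∀ n, z n = true → A x n) ∧ (∀ z ∈ Z, ∃ n, z n = true) ∧
      ∀ z ∈ Z, ∀ y ∈ Z, ∀ k : ℕ, ∃ n, ∀ i : ℤ, -k ≤ i → i ≤ k → sh n z i = y i := by
  classical
  have h0 : Good A univ := by
    refine ⟨isClosed_univ, fun _ _ _ => trivial, ⟨0, fun z₁ _ z₂ _ a b hab => ?_⟩,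
      fun x => ⟨fun _ => false, trivial, by simp⟩⟩
    refine ⟨fun i => if i < a then z₁ i else z₂ i, trivial, fun i hi => if_pos hi,
      fun i hi => if_neg (by push_cast at hab; omega)⟩
  obtain ⟨Ω₀, -, hΩ₀, hocc⟩ := h0.step hA (r := 1) (v := fun _ => true) (u := fun _ => true)
    (p₀ := 0) trivial (fun _ _ _ => rfl)
  have key : ∀ (Ω : {Ω : Set Sq // Good A Ω}) (w : ℕ × Finset ℤ),
      ∃ Ω' : {Ω : Set Sq // Good A Ω}, Ω'.1 ⊆ Ω.1 ∧
        ((∃ u ∈ Ω.1, ∃ p, Occ w.1 (fun i => decide (i ∈ w.2)) u p) →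
          ∀ z ∈ Ω'.1, ∃ p, Occ w.1 (fun i => decide (i ∈ w.2)) z p) := by
    intro Ω w
    by_cases hw : ∃ u ∈ Ω.1, ∃ p, Occ w.1 (fun i => decide (i ∈ w.2)) u p
    · obtain ⟨u, hu, p, hp⟩ := hw
      obtain ⟨Ω', h1, h2, h3⟩ := Ω.2.step hA hu hp
      exact ⟨⟨Ω', h2⟩, h1, fun _ => h3⟩
    · exact ⟨Ω, subset_rfl, fun h => absurd h hw⟩
  choose F hF1 hF2 using key
  obtain ⟨e, he⟩ := exists_surjective_nat (ℕ × Finset ℤ)
  let s : ℕ → {Ω : Set Sq // Good A Ω} := fun n => Nat.rec ⟨Ω₀, hΩ₀⟩ (fun k Ω => F Ω (e k)) n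
  have hs : ∀ k, s (k + 1) = F (s k) (e k) := fun _ => rfl
  refine ⟨⋂ k, (s k).1, isClosed_iInter fun k => (s k).2.cl,
    fun z hz n => mem_iInter.2 fun k => (s k).2.inv z (mem_iInter.1 hz k) n, fun x => ?_,
    fun z hz => ?_, fun z hz y hy k => ?_⟩
  · have hc : IsClosed {z : Sq | ∀ n, z n = true → A x n} := by
      simp only [ofPred_forall]
      refine isClosed_iInter fun n => ?_
      by_cases hn : A x n
      · simp [hn]
      · simp only [hn]
        have h2 : IsClosed {z : Sq | z n = false} :=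
          isClosed_eq (continuous_apply _) continuous_const
        convert h2 using 1
        ext z
        simp
    obtain ⟨z, hz⟩ := IsCompact.nonempty_iInter_of_sequence_nonempty_isCompact_isClosed
      (fun k => (s k).1 ∩ {z : Sq | ∀ n, z n = true → A x n})
      (fun k => inter_subset_inter_left _ (by rw [hs]; exact hF1 _ _))
      (fun k => (s k).2.sub x) (((s 0).2.cl.inter hc).isCompact)
      (fun k => (s k).2.cl.inter hc)
    exact ⟨z, mem_iInter.2 fun k => (mem_iInter.1 hz k).1, (mem_iInter.1 hz 0).2⟩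
  · obtain ⟨p, hp⟩ := hocc z (mem_iInter.1 hz 0)
    exact ⟨p + 0, hp 0 le_rfl (by norm_num)⟩
  · obtain ⟨m, hm⟩ := he (2 * k + 1, (Finset.Icc (0 : ℤ) (2 * k)).filter fun i => y (-k + i) = true)
    have h1 := hF2 (s m) (e m) ⟨y, mem_iInter.1 hy m, -k, by
      rw [hm]
      intro i h0 hi
      have : i ∈ Finset.Icc (0 : ℤ) (2 * k) := by
        rw [Finset.mem_Icc]; push_cast at hi; omega
      simp only [Finset.mem_filter, this, true_and]
      cases y (-k + i) <;> simp⟩ z (by rw [← hs]; exact mem_iInter.1 hz (m + 1))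
    obtain ⟨p, hp⟩ := h1
    rw [hm] at hp
    refine ⟨p + k, fun i h1 h2 => ?_⟩
    have h3 := hp (i + k) (by omega) (by push_cast; omega)
    have : i + k ∈ Finset.Icc (0 : ℤ) (2 * k) := by
      rw [Finset.mem_Icc]; omega
    simp only [Finset.mem_filter, this, true_and] at h3
    have e1 : -(k : ℤ) + (i + k) = i := by ring
    have e2 : i + (p + k) = p + (i + k) := by ring
    rw [e1] at h3
    unfold sh
    rw [e2, h3]
    cases y i <;> simp

end Pool.Agent.H.MP_5d027a_an
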