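import Pool.Agent.H.MP_5d027a_an.A
import Pool.Agent.H.MP_5d027a_an.B

namespace Pool.Agent.H.MP_5d027a_an

open Set

variable {X : Type}

theorem Inv.zpow [TopologicalSpace X] {T : X ≃ₜ X} {A : Set X} (h : Inv T A) (n : ℤ) (x : X) :
    (T ^ n) x ∈ A ↔ x ∈ A := by
  induction n using Int.induction_on generalizing x with
  | zero => simp
  | succ n ih => rw [zpow_add_one, Homeomorph.mul_apply, ih, h]
  | pred n ih =>
    rw [zpow_sub_one, Homeomorph.mul_apply, ih, ← h, Homeomorph.inv_apply, T.apply_symm_apply]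

theorem zpow_add_apply [TopologicalSpace X] (T : X ≃ₜ X) (m n : ℤ) (x : X) :
    (T ^ (m + n)) x = (T ^ m) ((T ^ n) x) := by
  rw [zpow_add, Homeomorph.mul_apply]

theorem inv_orbit [TopologicalSpace X] (T : X ≃ₜ X) (x : X) :
    Inv T (range fun n : ℤ => (T ^ n) x) := by
  intro y
  constructor
  · rintro ⟨n, hn⟩
    refine ⟨-1 + n, T.injective ?_⟩
    rw [← hn]
    show T ((T ^ (-1 + n)) x) = (T ^ n) x
    rw [zpow_add_apply, zpow_neg_one, Homeomorph.inv_apply, T.apply_symm_apply]
  · rintro ⟨n, rfl⟩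
    refine ⟨1 + n, ?_⟩
    show (T ^ (1 + n)) x = T ((T ^ n) x)
    rw [zpow_add_apply, zpow_one]

theorem runs [TopologicalSpace X] [CompactSpace X] (T : X ≃ₜ X) {O : Set X} (hO : IsOpen O)
    (hM : ∀ M, IsMinSet T M → M ⊆ O) : Runs fun (x : X) (n : ℤ) => (T ^ n) x ∈ O := by
  intro l
  let V : ℤ → Set X := fun a => ⋂ i ∈ Finset.Ico a (a + l), (T ^ i) ⁻¹' O
  have hV : ∀ a, IsOpen (V a) := fun a =>
    isOpen_biInter_finset fun i _ => hO.preimage (T ^ i).continuous
  have hcov : univ ⊆ ⋃ a, V a := by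
    intro x _
    obtain ⟨M, hMx, hMm⟩ := exists_minSet T (A := closure (range fun n : ℤ => (T ^ n) x))
      (range_nonempty _).closure isClosed_closure (inv_orbit T x).closure
    obtain ⟨m, hm⟩ := hMm.ne
    have h0 : m ∈ V 0 := mem_iInter₂.2 fun i _ => hM M hMm ((hMm.inv.zpow i m).2 hm)
    obtain ⟨_, h1, n, rfl⟩ := mem_closure_iff.1 (hMx hm) _ (hV 0) h0
    refine mem_iUnion.2 ⟨n, mem_iInter₂.2 fun i hi => ?_⟩
    rw [Finset.mem_Ico] at hi
    have := mem_iInter₂.1 h1 (i - n) (Finset.mem_Ico.2 ⟨by omega, by omega⟩)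
    rw [mem_preimage, ← zpow_add_apply, sub_add_cancel] at this
    exact this
  obtain ⟨F, hF⟩ := isCompact_univ.elim_finite_subcover V hV hcov
  obtain ⟨L, hL⟩ : ∃ L : ℕ, ∀ a ∈ F, a.natAbs ≤ L :=
    ⟨F.sup Int.natAbs, fun a ha => Finset.le_sup (f := Int.natAbs) ha⟩
  refine ⟨2 * L, fun x c => ?_⟩
  obtain ⟨a, ha, hx⟩ := mem_iUnion₂.1 (hF (mem_univ ((T ^ (c + L)) x)))
  have := hL a ha
  refine ⟨a + (c + L), by omega, by push_cast; omega, fun i h1 h2 => ?_⟩
  have h3 := mem_iInter₂.1 hx (i - (c + L)) (Finset.mem_Ico.2 ⟨by omega, by omega⟩)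
  rw [mem_preimage, ← zpow_add_apply, sub_add_cancel] at h3
  exact h3

def shift : Sq ≃ₜ Sq where
  toFun := sh 1
  invFun := sh (-1)
  left_inv z := by funext i; simp [sh]
  right_inv z := by funext i; simp [sh]
  continuous_toFun := continuous_pi fun i => continuous_apply _
  continuous_invFun := continuous_pi fun i => continuous_apply _

theorem shift_zpow (n : ℤ) (z : Sq) : (shift ^ n) z = sh n z := by
  induction n using Int.induction_on generalizing z with
  | zero => funext i; simp [sh]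
  | succ n ih =>
    rw [zpow_add_one, Homeomorph.mul_apply, ih]
    funext i
    show z (i + n + 1) = z (i + (n + 1))
    rw [add_assoc]
  | pred n ih =>
    rw [zpow_sub_one, Homeomorph.mul_apply, ih]
    funext i
    show z (i + -n + -1) = z (i + (-n - 1))
    rw [add_assoc, sub_eq_add_neg]

theorem DisjMin.denseMin [MetricSpace X] [CompactSpace X] [Nonempty X] {T : X ≃ₜ X}
    (h : DisjMin T) : DenseMin T := by
  intro A hA hM
  by_contra hne
  obtain ⟨x₀, hx₀⟩ := (ne_univ_iff_exists_notMem A).1 hne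
  obtain ⟨C, hC, hCcl, hCA⟩ := exists_mem_nhds_isClosed_subset (hA.isOpen_compl.mem_nhds hx₀)
  obtain ⟨Z, hZcl, hZinv, hZ1, hZ2, hZ3⟩ := exists_subshift (runs T hCcl.isOpen_compl
    fun M hMm x hx hxC => hCA hxC (hM M hMm hx))
  have hinv : Inv shift Z := by
    intro z
    refine ⟨fun hz => ?_, fun hz => hZinv z hz 1⟩
    have := hZinv _ hz (-1)
    rwa [show sh (-1) (shift z) = z from shift.left_inv z] at this
  have hne' : Z.Nonempty := by
    obtain ⟨z, hz, -⟩ := hZ1 x₀
    exact ⟨z, hz⟩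
  have hmin : IsMinSet shift Z := by
    refine ⟨hne', hZcl, hinv, fun B hBZ ⟨z, hz⟩ hBcl hBinv => hBZ.antisymm fun y hy => ?_⟩
    choose n hn using hZ3 z (hBZ hz) y hy
    refine hBcl.mem_of_tendsto (b := Filter.atTop) (f := fun k => sh (n k) z) ?_
      (Filter.Eventually.of_forall fun k => ?_)
    · rw [tendsto_pi_nhds]
      intro i
      refine tendsto_const_nhds.congr' ?_
      filter_upwards [Filter.eventually_ge_atTop i.natAbs] with k hk
      exact (hn k i (by omega) (by omega)).symm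
    · rw [← shift_zpow]
      exact (hBinv.zpow _ _).2 hz
  have : CompactSpace Z := isCompact_iff_compactSpace.1 hZcl.isCompact
  have : Nonempty Z := hne'.to_subtype
  let _ : MetricSpace Z := TopologicalSpace.metrizableSpaceMetric Z
  have hJ := (h Z (restr shift hinv) hmin.isMin).eq_univ hmin.isMin
    (J := {q : X × Z | ∀ n, q.2.1 n = true → (T ^ n) q.1 ∉ interior C}) (by
      simp only [ofPred_forall]
      refine isClosed_iInter fun n => ?_
      have h1 : IsClosed {q : X × Z | q.2.1 n = false} :=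
        isClosed_eq ((continuous_apply n).comp (continuous_subtype_val.comp continuous_snd))
          continuous_const
      have h2 : IsClosed {q : X × Z | (T ^ n) q.1 ∉ interior C} :=
        isOpen_interior.isClosed_compl.preimage ((T ^ n).continuous.comp continuous_fst)
      convert h1.union h2 using 1
      ext q
      cases hq : q.2.1 n <;> simp [hq]) (by
      intro q
      constructor
      · intro hq n hn
        have := hq (n - 1) (by
          show q.2.1 (n - 1 + 1) = true
          rwa [sub_add_cancel])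
        have e : (T ^ (n - 1)) (T q.1) = (T ^ n) q.1 := by
          rw [← Homeomorph.mul_apply, ← zpow_add_one, sub_add_cancel]
        rw [← e]
        exact this
      · intro hq n hn
        have := hq (n + 1) hn
        rw [zpow_add_one, Homeomorph.mul_apply] at this
        exact this) (by
      intro x
      obtain ⟨z, hz, hzx⟩ := hZ1 x
      exact ⟨⟨z, hz⟩, fun n hn hx => hzx n hn (interior_subset hx)⟩)
  obtain ⟨z, hz⟩ := hne'
  obtain ⟨n, hn⟩ := hZ2 z hz
  have h1 : (x₀, (⟨sh n z, hZinv z hz n⟩ : Z)) ∈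
      {q : X × Z | ∀ n, q.2.1 n = true → (T ^ n) q.1 ∉ interior C} := by rw [hJ]; trivial
  refine h1 0 ?_ ?_
  · show z (0 + n) = true
    rwa [zero_add]
  · simpa using mem_interior_iff_mem_nhds.2 hC

theorem main {X Y : Type} [MetricSpace X] [CompactSpace X] [Nonempty X] [MetricSpace Y]
    [CompactSpace Y] [Nonempty Y] {T : X ≃ₜ X} {S : Y ≃ₜ Y} (hX : DisjMin T) (hY : DisjMin S) :
    DisjMin (T.prodCongr S) :=
  prod_disjMin hX hY hX.denseMin hY.denseMin

end Pool.Agent.H.MP_5d027a_an
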